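import Pool.Agent.Helper78.WK3.StA

/-!
# Project WK3: module TA3 (Theorem A for the prime three)
-/

set_option autoImplicit false

namespace Pool.Agent.Helper43.WK3

open Pool.Agent.Helper78.WK3 Pool.Agent.Helper78.W3 Pool.Agent.Helper14.W3 Pool.Agent.Helper14.CV

section

variable {R S : Type} [AddCommGroup R] [AddCommGroup S]

/-- composition with a homomorphism of groups -/
private def mp (φ : R →+ S) (G : ℤ → ℤ → R) : ℤ → ℤ → S := fun p q => φ (G p q)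

private theorem mp_act (φ : R →+ S) (a b c d : ℤ) (G : ℤ → ℤ → R) : mp φ (act a b c d G) = act a b c d (mp φ G) := rfl

private theorem mp_add (φ : R →+ S) (G H : ℤ → ℤ → R) : mp φ (G + H) = mp φ G + mp φ H := by
  funext p q; simp [mp]

private theorem mp_sub (φ : R →+ S) (G H : ℤ → ℤ → R) : mp φ (G - H) = mp φ G - mp φ H := by
  funext p q; simp [mp]

private theorem mp_eqc (φ : R →+ S) {G H : ℤ → ℤ → R} (h : EqC G H) : EqC (mp φ G) (mp φ H) := by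
  obtain ⟨c, hc⟩ := h
  exact ⟨φ c, fun p q hpq => by simp only [mp]; rw [hc p q hpq, map_add]⟩

private theorem mp_sym (φ : R →+ S) {r s : ℕ} {G : ℤ → ℤ → R} (h : Sym3 r s G) : Sym3 r s (mp φ G) :=
  ⟨fun k p q hk hpq => by simp only [mp]; rw [h.1 k p q hk hpq],
    fun a b c d hd hb hc => mp_eqc φ (h.2 a b c d hd hb hc)⟩

private theorem mp_Tl (φ : R →+ S) (l : ℕ) (m : ℤ) (G : ℤ → ℤ → R) : mp φ (Tl l m G) = Tl l m (mp φ G) := by
  funext p q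
  simp only [mp, Tl, map_add, map_sum]

private theorem mp_Bo (φ : R →+ S) (m : ℤ) (G : ℤ → ℤ → R) : mp φ (Bo m G) = Bo m (mp φ G) := by
  unfold Bo
  rw [mp_sub, mp_add, mp_Tl, mp_Tl, mp_Tl]

private theorem mp_Tl_iter (φ : R →+ S) (l : ℕ) (m : ℤ) (i : ℕ) (G : ℤ → ℤ → R) :
    mp φ ((Tl l m)^[i] G) = (Tl l m)^[i] (mp φ G) := by
  induction i generalizing G with
  | zero => rfl
  | succ i ih => rw [Function.iterate_succ_apply, Function.iterate_succ_apply, ih, mp_Tl]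

private theorem mp_Bo_iter (φ : R →+ S) (m : ℤ) (i : ℕ) (G : ℤ → ℤ → R) :
    mp φ ((Bo m)^[i] G) = (Bo m)^[i] (mp φ G) := by
  induction i generalizing G with
  | zero => rfl
  | succ i ih => rw [Function.iterate_succ_apply, Function.iterate_succ_apply, ih, mp_Bo]

private theorem mp_ev3 (φ : R →+ S) (m : ℤ) (G : ℤ → ℤ → R) (i j : ℕ) :
    ev3 m (mp φ G) i j = φ (ev3 m G i j) := by
  unfold ev3
  rw [← mp_Tl_iter, ← mp_Bo_iter, map_sub]
  rfl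

/-- `W = -1` and `* = 1` for the symmetrised symbol -/
private theorem sym_W {w : ℤ} (hw : w ≠ 0) {H1 : ℤ → ℤ → R}
    (c1 : EqC (act 0 (-1) w 0 (act 0 (-1) w 0 H1)) H1)
    (c2 : ∀ H : ℤ → ℤ → R, H = H1 - act 0 (-1) w 0 H1 →
      EqC (act 0 (-1) w 0 (act (-1) 0 0 1 H)) (act (-1) 0 0 1 (act 0 (-1) w 0 H))) :
    EqC (act 0 (-1) w 0 (H1 - act 0 (-1) w 0 H1 + act (-1) 0 0 1 (H1 - act 0 (-1) w 0 H1)))
      (-(H1 - act 0 (-1) w 0 H1 + act (-1) 0 0 1 (H1 - act 0 (-1) w 0 H1))) := by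
  have h1 : EqC (act 0 (-1) w 0 (H1 - act 0 (-1) w 0 H1)) (-(H1 - act 0 (-1) w 0 H1)) := by
    rw [act_sub, neg_sub]
    exact (EqC.refl _).sub c1
  rw [act_add, neg_add]
  refine h1.add ((c2 _ rfl).trans ?_)
  rw [← act_neg]
  exact h1.act (by norm_num)

private theorem sym_T {H : ℤ → ℤ → R} (c : EqC (act (-1) 0 0 1 (act (-1) 0 0 1 H)) H) :
    EqC (act (-1) 0 0 1 (H + act (-1) 0 0 1 H)) (H + act (-1) 0 0 1 H) := by
  rw [act_add, add_comm H]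
  exact (EqC.refl _).add c

end

/-- an inverse modulo `3 ^ M` -/
private theorem inv3 {d : ℤ} (hd : ¬ (3 : ℤ) ∣ d) (M : ℕ) : ∃ d' : ℤ, ((d' * d : ℤ) : ZMod (3 ^ M)) = 1 := by
  have h1 : IsCoprime ((3 : ℤ) ^ M) d := (Int.prime_three.coprime_iff_not_dvd.2 hd).pow_left
  obtain ⟨a, b, h⟩ := h1
  refine ⟨b, ?_⟩
  have h2 : b * d = 1 - a * 3 ^ M := by linarith
  rw [h2]
  push_cast
  have h3 : ((3 : ZMod (3 ^ M))) ^ M = 0 := by
    have := ZMod.natCast_self (3 ^ M)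
    push_cast at this
    exact this
  rw [h3, mul_zero, sub_zero]

theorem hTA3 (hNrm : S3Nrm) (hEv : S3Ev) (hCom : S3Com) (hCrm : Crm3) (hK : Kk3) (hInt : IntS3) : TA3 := by
  intro m M g hm hg hW hT hev
  obtain ⟨d, G1, hd, s1, v1, e1⟩ := hCrm m M g hm hg hev
  have hw : (3 : ℤ) ^ m ≠ 0 := pow_ne_zero _ (by norm_num)
  -- the integral symbol
  set G2 : ℤ → ℤ → ℤ := G1 - act 0 (-1) (3 ^ m) 0 G1 + act (-1) 0 0 1 (G1 - act 0 (-1) (3 ^ m) 0 G1) with hG2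
  set φ : ℤ →+ ℂ := Int.castAddHom ℂ with hφ
  set H1 : ℤ → ℤ → ℂ := mp φ G1 with hH1
  have t1 : Sym3 0 m H1 := mp_sym φ s1
  have w1 : ∀ i j, ev3 1 H1 i j = 0 := fun i j => by rw [hH1, mp_ev3, v1, map_zero]
  set H : ℤ → ℤ → ℂ := H1 - act 0 (-1) (3 ^ m) 0 H1 with hH
  have eH2 : mp φ G2 = H + act (-1) 0 0 1 H := by
    rw [hG2, mp_add, mp_act, mp_sub, mp_act]
  have t2 : Sym3 0 m H := t1.sub (hNrm m H1 (by omega) t1).1
  have t3 : Sym3 0 m (H + act (-1) 0 0 1 H) := t2.add (hNrm m H (by omega) t2).2.2.2.2.2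
  have k1 := hCom m H1 hm t1
  have k2 := hCom m H hm t2
  have a1 : EqC (act 0 (-1) (3 ^ m) 0 (H + act (-1) 0 0 1 H)) (-(H + act (-1) 0 0 1 H)) :=
    sym_W hw k1.2.2.2.2.1 (fun H' h' => by
      rw [h']
      exact k2.2.2.2.2.2.2.2.2.2.2.2.1)
  have a2 : EqC (act (-1) 0 0 1 (H + act (-1) 0 0 1 H)) (H + act (-1) 0 0 1 H) := sym_T k2.2.2.2.2.2.1
  have a3 : ∀ i j, ev3 1 (H + act (-1) 0 0 1 H) i j = 0 := by
    intro i j
    have b1 : ev3 1 H i j = 0 := by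
      rw [hH, sub_eq_add_neg, ev3_add, ev3_neg, (hEv m H1 (by omega) t1 i j).1, w1]
      simp
    rw [ev3_add, (hEv m H (by omega) t2 i j).2, b1, add_zero]
  obtain ⟨ψ0, p1, p2⟩ := hK m _ hm t3 a1 a2 a3
  have p3 : EqC (act 3 0 0 1 ψ0 - ψ0) (fun p q => ((G2 p q : ℤ) : ℂ)) := by
    rw [← eH2] at p2
    exact p2
  obtain ⟨ψ1, q1, q2⟩ := hInt (m - 1) ψ0 G2 p1 p3
  -- reduction
  obtain ⟨d', hd'⟩ := inv3 hd M
  set χ : ℤ →+ ZMod (3 ^ M) := Int.castAddHom (ZMod (3 ^ M)) with hχ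
  have r1 : Sym3 0 (m - 1) (mp χ ψ1) := mp_sym χ q1
  have r2 : EqC (act 3 0 0 1 (mp χ ψ1) - mp χ ψ1) (mp χ G2) := by
    have := mp_eqc χ q2
    rw [mp_sub, mp_act] at this
    exact this
  have e1' : EqC (mp χ G1) (d • g) := e1
  have u1 : EqC (act 0 (-1) (3 ^ m) 0 (mp χ G1)) (-(d • g)) := by
    refine (e1'.act (by simpa using hw)).trans ?_
    rw [act_smul, ← smul_neg]
    exact hW.smul d
  have u2 : EqC (mp χ G1 - act 0 (-1) (3 ^ m) 0 (mp χ G1)) (d • g + d • g) := by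
    have := e1'.sub u1
    rw [sub_neg_eq_add] at this
    exact this
  have u3 : EqC (act (-1) 0 0 1 (mp χ G1 - act 0 (-1) (3 ^ m) 0 (mp χ G1))) (d • g + d • g) := by
    refine (u2.act (by norm_num)).trans ?_
    rw [act_add, act_smul]
    exact (hT.smul d).add (hT.smul d)
  have u4 : EqC (mp χ G2) (d • g + d • g + (d • g + d • g)) := by
    rw [hG2, mp_add, mp_act, mp_sub, mp_act]
    exact u2.add u3
  refine ⟨d' • mp χ ψ1, r1.smul d', ?_⟩
  have u5 := (r2.trans u4).smul d'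
  have e5 : d' • (act 3 0 0 1 (mp χ ψ1) - mp χ ψ1) = act 3 0 0 1 (d' • mp χ ψ1) - d' • mp χ ψ1 := by
    rw [smul_sub, act_smul]
  have e6 : d' • (d • g + d • g + (d • g + d • g)) = (4 : ℤ) • g := by
    funext p q
    have h1 : ∀ x : ZMod (3 ^ M), d' • (d • x) = x := fun x => by
      rw [smul_smul, zsmul_eq_mul, hd', one_mul]
    simp only [Pi.smul_apply, Pi.add_apply, smul_add, h1]
    rw [zsmul_eq_mul]
    push_cast
    ring
  rw [e5, e6] at u5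
  exact u5

end Pool.Agent.Helper43.WK3
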